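import Pool.Agent.Helper59.Pack.Planar
import Pool.Agent.Helper63.ML.Defs

/-!
# The planar packing lattice of a convex body that is large compared with its inscribed triangles
-/

set_option autoImplicit false
namespace Pool.Agent.Helper63.ML
open Complex Metric MeasureTheory
open scoped ComplexConjugate ENNReal
open Pool.Agent.Helper59.Pack

theorem bary_det (p₀ p₁ p₂ a b c : P2) :
    area2 p₀ p₁ p₂ ^ 2 * area2 a b c =
      area2 a p₁ p₂ * (area2 b p₂ p₀ * area2 c p₀ p₁ - area2 b p₀ p₁ * area2 c p₂ p₀) -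
      area2 a p₂ p₀ * (area2 b p₁ p₂ * area2 c p₀ p₁ - area2 b p₀ p₁ * area2 c p₁ p₂) +
      area2 a p₀ p₁ * (area2 b p₁ p₂ * area2 c p₂ p₀ - area2 b p₂ p₀ * area2 c p₁ p₂) := by
  simp only [area2, det2, Pi.sub_apply]
  ring

theorem aff_gt {α β a b u : ℝ} (h1 : 1 < α + β * a) (h2 : 1 < α + β * b) (ha : a ≤ u)
    (hb : u ≤ b) : 1 < α + β * u := by
  rcases le_total 0 β with h | h
  · have := mul_le_mul_of_nonneg_left ha h
    linarith
  · have := mul_le_mul_of_nonpos_left hb h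
    linarith

/-- The multi-affine inequality. -/
theorem box_gt {h₀ h₁ h₂ u₀ u₁ u₂ : ℝ} (a0 : h₀ ≤ u₀) (a1 : h₁ ≤ u₁) (a2 : h₂ ≤ u₂)
    (b0 : u₀ ≤ 1) (b1 : u₁ ≤ 1) (b2 : u₂ ≤ 1)
    (hs : 0 < h₀ * h₁ + h₁ * h₂ + h₂ * h₀)
    (k0 : 1 < (h₁ + h₂) * (1 + h₀)) (k1 : 1 < (h₀ + h₂) * (1 + h₁))
    (k2 : 1 < (h₀ + h₁) * (1 + h₂)) :
    1 < -h₀ * h₁ * h₂ + h₀ * u₁ * (1 + h₂ - u₂) + h₁ * (1 + h₀ - u₀) * u₂ +
      h₂ * u₀ * (1 + h₁ - u₁) + u₀ * u₁ * u₂ +
      (1 + h₀ - u₀) * (1 + h₁ - u₁) * (1 + h₂ - u₂) := by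
  -- affine in `u₂`
  have key2 : ∀ u₀ u₁, (u₀ = h₀ ∨ u₀ = 1) → (u₁ = h₁ ∨ u₁ = 1) →
      1 < -h₀ * h₁ * h₂ + h₀ * u₁ * (1 + h₂ - u₂) + h₁ * (1 + h₀ - u₀) * u₂ +
      h₂ * u₀ * (1 + h₁ - u₁) + u₀ * u₁ * u₂ +
      (1 + h₀ - u₀) * (1 + h₁ - u₁) * (1 + h₂ - u₂) := by
    intro u₀ u₁ c0 c1
    have e : ∀ v : ℝ, -h₀ * h₁ * h₂ + h₀ * u₁ * (1 + h₂ - v) + h₁ * (1 + h₀ - u₀) * v +
      h₂ * u₀ * (1 + h₁ - u₁) + u₀ * u₁ * v +
      (1 + h₀ - u₀) * (1 + h₁ - u₁) * (1 + h₂ - v) =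
      (-h₀ * h₁ * h₂ + h₀ * u₁ * (1 + h₂) + h₂ * u₀ * (1 + h₁ - u₁) +
        (1 + h₀ - u₀) * (1 + h₁ - u₁) * (1 + h₂)) +
      (-h₀ * u₁ + h₁ * (1 + h₀ - u₀) + u₀ * u₁ - (1 + h₀ - u₀) * (1 + h₁ - u₁)) * v := by
      intro v; ring
    rw [e]
    refine aff_gt ?_ ?_ a2 b2
    · rw [← e]
      rcases c0 with rfl | rfl <;> rcases c1 with rfl | rfl <;> nlinarith
    · rw [← e]
      rcases c0 with rfl | rfl <;> rcases c1 with rfl | rfl <;> nlinarith
  have key1 : ∀ u₀, (u₀ = h₀ ∨ u₀ = 1) →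
      1 < -h₀ * h₁ * h₂ + h₀ * u₁ * (1 + h₂ - u₂) + h₁ * (1 + h₀ - u₀) * u₂ +
      h₂ * u₀ * (1 + h₁ - u₁) + u₀ * u₁ * u₂ +
      (1 + h₀ - u₀) * (1 + h₁ - u₁) * (1 + h₂ - u₂) := by
    intro u₀ c0
    have e : ∀ v : ℝ, -h₀ * h₁ * h₂ + h₀ * v * (1 + h₂ - u₂) + h₁ * (1 + h₀ - u₀) * u₂ +
      h₂ * u₀ * (1 + h₁ - v) + u₀ * v * u₂ +
      (1 + h₀ - u₀) * (1 + h₁ - v) * (1 + h₂ - u₂) =
      (-h₀ * h₁ * h₂ + h₁ * (1 + h₀ - u₀) * u₂ + h₂ * u₀ * (1 + h₁) +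
        (1 + h₀ - u₀) * (1 + h₁) * (1 + h₂ - u₂)) +
      (h₀ * (1 + h₂ - u₂) - h₂ * u₀ + u₀ * u₂ - (1 + h₀ - u₀) * (1 + h₂ - u₂)) * v := by
      intro v; ring
    rw [e]
    refine aff_gt ?_ ?_ a1 b1
    · rw [← e]
      exact key2 _ _ c0 (Or.inl rfl)
    · rw [← e]
      exact key2 _ _ c0 (Or.inr rfl)
  have e : ∀ v : ℝ, -h₀ * h₁ * h₂ + h₀ * u₁ * (1 + h₂ - u₂) + h₁ * (1 + h₀ - v) * u₂ +
      h₂ * v * (1 + h₁ - u₁) + v * u₁ * u₂ +
      (1 + h₀ - v) * (1 + h₁ - u₁) * (1 + h₂ - u₂) =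
      (-h₀ * h₁ * h₂ + h₀ * u₁ * (1 + h₂ - u₂) + h₁ * (1 + h₀) * u₂ +
        (1 + h₀) * (1 + h₁ - u₁) * (1 + h₂ - u₂)) +
      (-h₁ * u₂ + h₂ * (1 + h₁ - u₁) + u₁ * u₂ - (1 + h₁ - u₁) * (1 + h₂ - u₂)) * v := by
      intro v; ring
  rw [e]
  refine aff_gt ?_ ?_ a0 b0
  · rw [← e]
    exact key1 _ (Or.inl rfl)
  · rw [← e]
    exact key1 _ (Or.inr rfl)

/-- `D ≤ 3` when the three heights are large. -/
theorem D_le_three {h₀ h₁ h₂ : ℝ}
    (hk : (h₁ + h₂) * (1 + h₀) ≤ 1 ∨ (h₀ + h₂) * (1 + h₁) ≤ 1 ∨ (h₀ + h₁) * (1 + h₂) ≤ 1) :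
    (3 + 2 * (h₀ + h₁ + h₂) + (h₀ + h₁ + h₂) ^ 2 - 2 * (h₀ ^ 2 + h₁ ^ 2 + h₂ ^ 2)) / 2 ≤ 3 := by
  rcases hk with h | h | h
  · nlinarith [sq_nonneg (h₁ - h₂), sq_nonneg (h₀ - 1)]
  · nlinarith [sq_nonneg (h₀ - h₂), sq_nonneg (h₁ - 1)]
  · nlinarith [sq_nonneg (h₀ - h₁), sq_nonneg (h₂ - 1)]

/-- The final numerical inequality (normalised). -/
theorem num_ineq {h₀ h₁ h₂ V : ℝ} (n0 : 0 ≤ h₀) (n1 : 0 ≤ h₁) (n2 : 0 ≤ h₂)
    (hV1 : Real.sqrt 3 ≤ V) (hV2 : 1 + (h₀ + h₁ + h₂) ≤ V)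
    (hbig : 4 / Real.sqrt 3 < 1 + (h₀ + h₁ + h₂) →
      (h₁ + h₂) * (1 + h₀) ≤ 1 ∨ (h₀ + h₂) * (1 + h₁) ≤ 1 ∨ (h₀ + h₁) * (1 + h₂) ≤ 1) :
    (42 * Real.sqrt 3 - 72) * ((3 + 2 * (h₀ + h₁ + h₂) + (h₀ + h₁ + h₂) ^ 2 -
      2 * (h₀ ^ 2 + h₁ ^ 2 + h₂ ^ 2)) / 2) ≤ V := by
  set r := Real.sqrt 3 with hr
  have hr2 : r ^ 2 = 3 := Real.sq_sqrt (by norm_num)
  have hr0 : 0 < r := Real.sqrt_pos.2 (by norm_num)
  have hra : 1.73 < r := by
    rw [hr]; apply Real.lt_sqrt_of_sq_lt; norm_num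
  have hrb : r < 1.7321 := by
    rw [hr, Real.sqrt_lt' (by norm_num)]; norm_num
  set s := h₀ + h₁ + h₂ with hs
  have s0 : 0 ≤ s := by positivity
  have hk0 : 0 < 42 * r - 72 := by linarith
  have hk : 42 * r - 72 = 6 * r * (2 - r) ^ 2 := by
    have : r ^ 3 = 3 * r := by rw [pow_succ, hr2]
    nlinarith [this]
  by_cases hc : 4 / r < 1 + s
  · have h1 := D_le_three (hbig hc)
    have h2 : 4 / r = 4 / 3 * r := by
      field_simp
      nlinarith
    rw [h2] at hc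
    calc _ ≤ (42 * r - 72) * 3 := mul_le_mul_of_nonneg_left h1 hk0.le
      _ ≤ V := by linarith
  · push Not at hc
    have h2 : 4 / r = 4 / 3 * r := by
      field_simp
      nlinarith
    rw [h2] at hc
    have h3 : (3 + 2 * s + s ^ 2 - 2 * (h₀ ^ 2 + h₁ ^ 2 + h₂ ^ 2)) / 2 ≤ (3 + s) ^ 2 / 6 := by
      rw [hs]
      nlinarith [sq_nonneg (h₀ - h₁), sq_nonneg (h₀ - h₂), sq_nonneg (h₁ - h₂)]
    refine (mul_le_mul_of_nonneg_left h3 hk0.le).trans ?_
    rcases le_total (1 + s) r with h4 | h4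
    · have h5 : (3 + s) ^ 2 ≤ (2 + r) ^ 2 := by
        apply pow_le_pow_left₀ (by positivity)
        linarith
      have h6 : (42 * r - 72) * ((2 + r) ^ 2 / 6) = r := by
        rw [hk]
        have : (2 - r) * (2 + r) = 1 := by nlinarith
        calc 6 * r * (2 - r) ^ 2 * ((2 + r) ^ 2 / 6) = r * ((2 - r) * (2 + r)) ^ 2 := by ring
          _ = r := by rw [this]; ring
      calc (42 * r - 72) * ((3 + s) ^ 2 / 6) ≤ (42 * r - 72) * ((2 + r) ^ 2 / 6) := by gcongr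
        _ = r := h6
        _ ≤ V := hV1
    · have h5 : (42 * r - 72) * ((3 + s) ^ 2 / 6) - (1 + s) =
          (42 * r - 72) * ((1 + s - r) * (1 + s - 4 / 3 * r)) / 6 := by
        have h7 : r ^ 3 = 3 * r := by rw [pow_succ, hr2]
        have e : (42 * r - 72) * ((3 + s) ^ 2 / 6) - (1 + s) -
          (42 * r - 72) * ((1 + s - r) * (1 + s - 4 / 3 * r)) / 6 = 0 := by
          ring_nf
          rw [h7, hr2]
          ring
        linarith
      have h6 : (1 + s - r) * (1 + s - 4 / 3 * r) ≤ 0 :=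
        mul_nonpos_of_nonneg_of_nonpos (by linarith) (by linarith)
      have h7 : (42 * r - 72) * ((1 + s - r) * (1 + s - 4 / 3 * r)) ≤ 0 :=
        mul_nonpos_of_nonneg_of_nonpos hk0.le h6
      linarith

theorem vol_ge_aux {Q : Set P2} (hconv : Convex ℝ Q) (hcomp : IsCompact Q) {p₀ p₁ p₂ : P2} {A : ℝ}
    (h : MaxTri Q p₀ p₁ p₂ A) {a₀ a₁ a₂ : P2} (ha₀ : a₀ ∈ Q) (ha₁ : a₁ ∈ Q) (ha₂ : a₂ ∈ Q) :
    ENNReal.ofReal ((A + -area2 a₀ p₁ p₂ + -area2 a₁ p₂ p₀ + -area2 a₂ p₀ p₁) / 2) ≤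
      volume Q := by
  have hA := h.hA
  have hA0 := h.pos
  -- the three barycentric coordinates
  set l₀ : P2 → ℝ := fun x => area2 x p₁ p₂ with hl₀
  set l₁ : P2 → ℝ := fun x => area2 x p₂ p₀ with hl₁
  set l₂ : P2 → ℝ := fun x => area2 x p₀ p₁ with hl₂
  have hsum : ∀ x, l₀ x + l₁ x + l₂ x = A := by
    intro x
    rw [← hA]
    simp only [hl₀, hl₁, hl₂, area2, det2, Pi.sub_apply]
    ring
  have hc₀ : Continuous l₀ := by simp only [hl₀, area2, det2, Pi.sub_apply]; fun_prop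
  have hc₁ : Continuous l₁ := by simp only [hl₁, area2, det2, Pi.sub_apply]; fun_prop
  have hc₂ : Continuous l₂ := by simp only [hl₂, area2, det2, Pi.sub_apply]; fun_prop
  have u₀ : ∀ x ∈ Q, l₀ x ≤ A := fun x hx => h.max _ hx _ h.m1 _ h.m2
  have u₁ : ∀ x ∈ Q, l₁ x ≤ A := fun x hx => h.max _ hx _ h.m2 _ h.m0
  have u₂ : ∀ x ∈ Q, l₂ x ≤ A := fun x hx => h.max _ hx _ h.m0 _ h.m1
  set X₀ := -l₀ a₀ with hX₀
  set X₁ := -l₁ a₁ with hX₁
  set X₂ := -l₂ a₂ with hX₂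
  have l00 : l₀ p₀ = A := hA
  have l01 : l₀ p₁ = 0 := area2_self_left _ _
  have l02 : l₀ p₂ = 0 := area2_self_right _ _
  have l10 : l₁ p₀ = 0 := area2_self_right _ _
  have l11 : l₁ p₁ = A := by
    simp only [hl₁]; rw [area2_cyc p₀ p₁ p₂]; exact hA
  have l12 : l₁ p₂ = 0 := area2_self_left _ _
  have l20 : l₂ p₀ = 0 := area2_self_left _ _
  have l21 : l₂ p₁ = 0 := area2_self_right _ _
  have l22 : l₂ p₂ = A := by
    simp only [hl₂]; rw [← area2_cyc p₂ p₀ p₁]; exact hA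
  have hvol : ENNReal.ofReal ((A + X₀ + X₁ + X₂) / 2) ≤ volume Q := by
    have hm : MeasurableSet Q := hcomp.isClosed.measurableSet
    set R₀ := Q ∩ {x | l₀ x < 0} with hR₀
    set R₁ := Q ∩ {x | l₁ x < 0} with hR₁
    set R₂ := Q ∩ {x | l₂ x < 0} with hR₂
    set R := Q ∩ {x | 0 < l₀ x ∧ 0 < l₁ x ∧ 0 < l₂ x} with hR
    have hmR₀ : MeasurableSet R₀ := hm.inter (isOpen_lt hc₀ continuous_const).measurableSet
    have hmR₁ : MeasurableSet R₁ := hm.inter (isOpen_lt hc₁ continuous_const).measurableSet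
    have hmR₂ : MeasurableSet R₂ := hm.inter (isOpen_lt hc₂ continuous_const).measurableSet
    have v0 : ENNReal.ofReal (X₀ / 2) ≤ volume R₀ := by
      rcases lt_or_ge 0 X₀ with hx | hx
      · have h1 : |area2 a₀ p₁ p₂| = X₀ := by
          have : area2 a₀ p₁ p₂ = -X₀ := by rw [hX₀]; simp only [hl₀]; ring
          rw [this, abs_neg, abs_of_pos hx]
        rw [← h1, ← vol_triMap]
        apply measure_mono
        rintro _ ⟨s, hs, rfl⟩
        refine ⟨triMap_mem hconv ha₀ h.m1 h.m2 hs, ?_⟩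
        obtain ⟨s0, s1, s2⟩ := hs
        have e : l₀ (triMap a₀ p₁ p₂ s) = (1 - s 0 - s 1) * l₀ a₀ + s 0 * l₀ p₁ + s 1 * l₀ p₂ :=
          area2_triMap_left _ _ _ _ _ _
        rw [Set.mem_ofPred_eq, e, l01, l02]
        have : l₀ a₀ = -X₀ := by rw [hX₀]; ring
        rw [this]
        have h5 : 0 < (1 - s 0 - s 1) * X₀ := mul_pos (by linarith) hx
        linarith
      · rw [ENNReal.ofReal_of_nonpos (by linarith)]; exact zero_le
    have v1 : ENNReal.ofReal (X₁ / 2) ≤ volume R₁ := by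
      rcases lt_or_ge 0 X₁ with hx | hx
      · have h1 : |area2 a₁ p₂ p₀| = X₁ := by
          have : area2 a₁ p₂ p₀ = -X₁ := by rw [hX₁]; simp only [hl₁]; ring
          rw [this, abs_neg, abs_of_pos hx]
        rw [← h1, ← vol_triMap]
        apply measure_mono
        rintro _ ⟨s, hs, rfl⟩
        refine ⟨triMap_mem hconv ha₁ h.m2 h.m0 hs, ?_⟩
        obtain ⟨s0, s1, s2⟩ := hs
        have e : l₁ (triMap a₁ p₂ p₀ s) = (1 - s 0 - s 1) * l₁ a₁ + s 0 * l₁ p₂ + s 1 * l₁ p₀ :=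
          area2_triMap_left _ _ _ _ _ _
        rw [Set.mem_ofPred_eq, e, l12, l10]
        have : l₁ a₁ = -X₁ := by rw [hX₁]; ring
        rw [this]
        have h5 : 0 < (1 - s 0 - s 1) * X₁ := mul_pos (by linarith) hx
        linarith
      · rw [ENNReal.ofReal_of_nonpos (by linarith)]; exact zero_le
    have v2 : ENNReal.ofReal (X₂ / 2) ≤ volume R₂ := by
      rcases lt_or_ge 0 X₂ with hx | hx
      · have h1 : |area2 a₂ p₀ p₁| = X₂ := by
          have : area2 a₂ p₀ p₁ = -X₂ := by rw [hX₂]; simp only [hl₂]; ring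
          rw [this, abs_neg, abs_of_pos hx]
        rw [← h1, ← vol_triMap]
        apply measure_mono
        rintro _ ⟨s, hs, rfl⟩
        refine ⟨triMap_mem hconv ha₂ h.m0 h.m1 hs, ?_⟩
        obtain ⟨s0, s1, s2⟩ := hs
        have e : l₂ (triMap a₂ p₀ p₁ s) = (1 - s 0 - s 1) * l₂ a₂ + s 0 * l₂ p₀ + s 1 * l₂ p₁ :=
          area2_triMap_left _ _ _ _ _ _
        rw [Set.mem_ofPred_eq, e, l20, l21]
        have : l₂ a₂ = -X₂ := by rw [hX₂]; ring
        rw [this]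
        have h5 : 0 < (1 - s 0 - s 1) * X₂ := mul_pos (by linarith) hx
        linarith
      · rw [ENNReal.ofReal_of_nonpos (by linarith)]; exact zero_le
    have v : ENNReal.ofReal (A / 2) ≤ volume R := by
      have h1 : |area2 p₀ p₁ p₂| = A := by rw [hA, abs_of_pos hA0]
      rw [← h1, ← vol_triMap]
      apply measure_mono
      rintro _ ⟨s, hs, rfl⟩
      refine ⟨triMap_mem hconv h.m0 h.m1 h.m2 hs, ?_⟩
      obtain ⟨s0, s1, s2⟩ := hs
      have e0 : l₀ (triMap p₀ p₁ p₂ s) = (1 - s 0 - s 1) * l₀ p₀ + s 0 * l₀ p₁ + s 1 * l₀ p₂ :=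
        area2_triMap_left _ _ _ _ _ _
      have e1 : l₁ (triMap p₀ p₁ p₂ s) = (1 - s 0 - s 1) * l₁ p₀ + s 0 * l₁ p₁ + s 1 * l₁ p₂ :=
        area2_triMap_left _ _ _ _ _ _
      have e2 : l₂ (triMap p₀ p₁ p₂ s) = (1 - s 0 - s 1) * l₂ p₀ + s 0 * l₂ p₁ + s 1 * l₂ p₂ :=
        area2_triMap_left _ _ _ _ _ _
      rw [Set.mem_ofPred_eq, e0, e1, e2, l00, l01, l02, l10, l11, l12, l20, l21, l22]
      have h5 : 0 < (1 - s 0 - s 1) * A := mul_pos (by linarith) hA0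
      have h6 : 0 < s 0 * A := mul_pos s0 hA0
      have h7 : 0 < s 1 * A := mul_pos s1 hA0
      refine ⟨by linarith, by linarith, by linarith⟩
    -- disjointness
    have d0 : Disjoint R R₀ := Set.disjoint_left.2 (fun x hx hx' => by
      have h1 := hx.2.1; have h2 : l₀ x < 0 := hx'.2; linarith)
    have d1 : Disjoint (R ∪ R₀) R₁ := Set.disjoint_left.2 (fun x hx hx' => by
      have h2 : l₁ x < 0 := hx'.2
      rcases hx with hx | hx
      · have h1 := hx.2.2.1; linarith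
      · have h1 : l₀ x < 0 := hx.2
        have h3 := u₂ x hx.1
        have h4 := hsum x
        linarith)
    have d2 : Disjoint (R ∪ R₀ ∪ R₁) R₂ := Set.disjoint_left.2 (fun x hx hx' => by
      have h2 : l₂ x < 0 := hx'.2
      rcases hx with (hx | hx) | hx
      · have h1 := hx.2.2.2; linarith
      · have h1 : l₀ x < 0 := hx.2
        have h3 := u₁ x hx.1
        have h4 := hsum x
        linarith
      · have h1 : l₁ x < 0 := hx.2
        have h3 := u₀ x hx.1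
        have h4 := hsum x
        linarith)
    calc ENNReal.ofReal ((A + X₀ + X₁ + X₂) / 2)
        = ENNReal.ofReal (A / 2 + X₀ / 2 + X₁ / 2 + X₂ / 2) := by congr 1; ring
      _ ≤ ENNReal.ofReal (A / 2 + X₀ / 2 + X₁ / 2) + ENNReal.ofReal (X₂ / 2) :=
          ENNReal.ofReal_add_le
      _ ≤ (ENNReal.ofReal (A / 2 + X₀ / 2) + ENNReal.ofReal (X₁ / 2)) +
          ENNReal.ofReal (X₂ / 2) := by gcongr; exact ENNReal.ofReal_add_le
      _ ≤ (ENNReal.ofReal (A / 2) + ENNReal.ofReal (X₀ / 2) + ENNReal.ofReal (X₁ / 2)) +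
          ENNReal.ofReal (X₂ / 2) := by gcongr; exact ENNReal.ofReal_add_le
      _ ≤ volume R + volume R₀ + volume R₁ + volume R₂ := by gcongr
      _ = volume (R ∪ R₀ ∪ R₁ ∪ R₂) := by
          rw [measure_union d2 hmR₂, measure_union d1 hmR₁, measure_union d0 hmR₀]
      _ ≤ volume Q := by
          apply measure_mono
          rintro x (((hx | hx) | hx) | hx) <;> exact hx.1
  exact hvol

theorem vol_ge {Q : Set P2} (hconv : Convex ℝ Q) (hcomp : IsCompact Q) {p₀ p₁ p₂ : P2} {A : ℝ}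
    (h : MaxTri Q p₀ p₁ p₂ A) {q₀ q₁ q₂ : P2} (h0 : q₀ ∈ Q) (h1 : q₁ ∈ Q) (h2 : q₂ ∈ Q) :
    ENNReal.ofReal ((A - area2 q₀ p₁ p₂ - area2 q₁ p₂ p₀ - area2 q₂ p₀ p₁) / 2) ≤ volume Q := by
  have := vol_ge_aux hconv hcomp h h0 h1 h2
  convert this using 3
  ring

theorem fary_big {Q : Set P2} (hconv : Convex ℝ Q) (hcomp : IsCompact Q) {p₀ p₁ p₂ : P2} {A : ℝ}
    (h : MaxTri Q p₀ p₁ p₂ A) (hbig : ENNReal.ofReal (Real.sqrt 3 * A / 2) ≤ volume Q) :
    ∃ t₁ t₂ : P2, 0 < det2 t₁ t₂ ∧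
      ENNReal.ofReal ((42 * Real.sqrt 3 - 72) * det2 t₁ t₂) ≤ volume Q ∧
      ∀ m n : ℤ, (m ≠ 0 ∨ n ≠ 0) → ∀ x ∈ interior Q, ∀ y ∈ interior Q,
        x - y ≠ (m : ℝ) • t₁ + (n : ℝ) • t₂ := by
  have hA := h.hA
  have hA0 := h.pos
  -- the three barycentric coordinates
  set l₀ : P2 → ℝ := fun x => area2 x p₁ p₂ with hl₀
  set l₁ : P2 → ℝ := fun x => area2 x p₂ p₀ with hl₁
  set l₂ : P2 → ℝ := fun x => area2 x p₀ p₁ with hl₂
  have hsum : ∀ x, l₀ x + l₁ x + l₂ x = A := by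
    intro x
    rw [← hA]
    simp only [hl₀, hl₁, hl₂, area2, det2, Pi.sub_apply]
    ring
  have hc₀ : Continuous l₀ := by simp only [hl₀, area2, det2, Pi.sub_apply]; fun_prop
  have hc₁ : Continuous l₁ := by simp only [hl₁, area2, det2, Pi.sub_apply]; fun_prop
  have hc₂ : Continuous l₂ := by simp only [hl₂, area2, det2, Pi.sub_apply]; fun_prop
  have u₀ : ∀ x ∈ Q, l₀ x ≤ A := fun x hx => h.max _ hx _ h.m1 _ h.m2
  have u₁ : ∀ x ∈ Q, l₁ x ≤ A := fun x hx => h.max _ hx _ h.m2 _ h.m0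
  have u₂ : ∀ x ∈ Q, l₂ x ≤ A := fun x hx => h.max _ hx _ h.m0 _ h.m1
  have lo₀ : ∀ x ∈ Q, -A ≤ l₀ x := by
    intro x hx
    have := h.max _ hx _ h.m2 _ h.m1
    rw [area2_swap] at this
    simp only [hl₀]
    linarith
  have lo₁ : ∀ x ∈ Q, -A ≤ l₁ x := by
    intro x hx
    have := h.max _ hx _ h.m0 _ h.m2
    rw [area2_swap] at this
    simp only [hl₁]
    linarith
  have lo₂ : ∀ x ∈ Q, -A ≤ l₂ x := by
    intro x hx
    have := h.max _ hx _ h.m1 _ h.m0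
    rw [area2_swap] at this
    simp only [hl₂]
    linarith
  have hQne : Q.Nonempty := ⟨p₀, h.m0⟩
  obtain ⟨a₀, ha₀, hmin₀⟩ := hcomp.exists_isMinOn hQne hc₀.continuousOn
  obtain ⟨a₁, ha₁, hmin₁⟩ := hcomp.exists_isMinOn hQne hc₁.continuousOn
  obtain ⟨a₂, ha₂, hmin₂⟩ := hcomp.exists_isMinOn hQne hc₂.continuousOn
  have hmin₀ : ∀ x ∈ Q, l₀ a₀ ≤ l₀ x := fun x hx => hmin₀ hx
  have hmin₁ : ∀ x ∈ Q, l₁ a₁ ≤ l₁ x := fun x hx => hmin₁ hx
  have hmin₂ : ∀ x ∈ Q, l₂ a₂ ≤ l₂ x := fun x hx => hmin₂ hx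
  set X₀ := -l₀ a₀ with hX₀
  set X₁ := -l₁ a₁ with hX₁
  set X₂ := -l₂ a₂ with hX₂
  have l00 : l₀ p₀ = A := hA
  have l01 : l₀ p₁ = 0 := area2_self_left _ _
  have l02 : l₀ p₂ = 0 := area2_self_right _ _
  have l10 : l₁ p₀ = 0 := area2_self_right _ _
  have l11 : l₁ p₁ = A := by
    simp only [hl₁]; rw [area2_cyc p₀ p₁ p₂]; exact hA
  have l12 : l₁ p₂ = 0 := area2_self_left _ _
  have l20 : l₂ p₀ = 0 := area2_self_left _ _
  have l21 : l₂ p₁ = 0 := area2_self_right _ _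
  have l22 : l₂ p₂ = A := by
    simp only [hl₂]; rw [← area2_cyc p₂ p₀ p₁]; exact hA
  have X₀0 : 0 ≤ X₀ := by have := hmin₀ p₁ h.m1; rw [l01] at this; linarith
  have X₁0 : 0 ≤ X₁ := by have := hmin₁ p₀ h.m0; rw [l10] at this; linarith
  have X₂0 : 0 ≤ X₂ := by have := hmin₂ p₀ h.m0; rw [l20] at this; linarith
  have X₀A : X₀ ≤ A := by have := lo₀ a₀ ha₀; linarith
  have X₁A : X₁ ≤ A := by have := lo₁ a₁ ha₁; linarith
  have X₂A : X₂ ≤ A := by have := lo₂ a₂ ha₂; linarith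
  have hvol : ENNReal.ofReal ((A + X₀ + X₁ + X₂) / 2) ≤ volume Q := by
    have := vol_ge_aux hconv hcomp h ha₀ ha₁ ha₂
    exact this
  set E₀ := (A + X₁ + X₂ - X₀) / 2 with hE₀
  set E₁ := (A + X₀ + X₂ - X₁) / 2 with hE₁
  set E₂ := (A + X₀ + X₁ - X₂) / 2 with hE₂
  have E₀0 : 0 ≤ E₀ := by rw [hE₀]; linarith
  have E₁0 : 0 ≤ E₁ := by rw [hE₁]; linarith
  have E₂0 : 0 ≤ E₂ := by rw [hE₂]; linarith
  set t₁ : P2 := (-(E₁ + E₂) / A) • p₀ + (E₂ / A) • p₁ + (E₁ / A) • p₂ with ht₁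
  set t₂ : P2 := (E₂ / A) • p₀ + (-(E₂ + E₀) / A) • p₁ + (E₀ / A) • p₂ with ht₂
  have hAne : A ≠ 0 := hA0.ne'
  have hdet : det2 t₁ t₂ = (E₀ * E₁ + E₀ * E₂ + E₁ * E₂) / A := by
    have e : det2 t₁ t₂ = (E₀ * E₁ + E₀ * E₂ + E₁ * E₂) / A ^ 2 * area2 p₀ p₁ p₂ := by
      simp only [ht₁, ht₂, det2, area2, Pi.sub_apply, Pi.add_apply, Pi.smul_apply, smul_eq_mul]
      field_simp
      ring
    rw [e, hA]
    field_simp
  have hpos : 0 < E₀ * E₁ + E₀ * E₂ + E₁ * E₂ := by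
    have e1 : E₁ + E₂ = A + X₀ := by rw [hE₁, hE₂]; ring
    have e2 : E₀ + E₂ = A + X₁ := by rw [hE₀, hE₂]; ring
    have e3 : E₀ + E₁ = A + X₂ := by rw [hE₀, hE₁]; ring
    rcases E₀0.lt_or_eq with h1 | h1
    · have : 0 < E₀ * (E₁ + E₂) := mul_pos h1 (by linarith)
      have h2 : 0 ≤ E₁ * E₂ := mul_nonneg E₁0 E₂0
      linarith
    · rw [← h1] at e2 e3 ⊢
      have : 0 < E₁ * E₂ := mul_pos (by linarith) (by linarith)
      linarith
  refine ⟨t₁, t₂, ?_, ?_, ?_⟩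
  · rw [hdet]
    exact div_pos hpos hA0
  · -- the numerical inequality
    have hV : ENNReal.ofReal (A * max (Real.sqrt 3) (1 + (X₀ / A + X₁ / A + X₂ / A)) / 2) ≤
        volume Q := by
      rcases le_total (Real.sqrt 3) (1 + (X₀ / A + X₁ / A + X₂ / A)) with hc | hc
      · rw [max_eq_right hc]
        convert hvol using 2
        field_simp
        ring
      · rw [max_eq_left hc]
        convert hbig using 2
        ring
    refine le_trans (ENNReal.ofReal_le_ofReal ?_) hV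
    have hnum := num_ineq (h₀ := X₀ / A) (h₁ := X₁ / A) (h₂ := X₂ / A)
      (V := max (Real.sqrt 3) (1 + (X₀ / A + X₁ / A + X₂ / A))) (by positivity) (by positivity)
      (by positivity) (le_max_left _ _) (le_max_right _ _) ?_
    · have e : det2 t₁ t₂ = A / 2 * ((3 + 2 * (X₀ / A + X₁ / A + X₂ / A) +
          (X₀ / A + X₁ / A + X₂ / A) ^ 2 -
          2 * ((X₀ / A) ^ 2 + (X₁ / A) ^ 2 + (X₂ / A) ^ 2)) / 2) := by
        rw [hdet, hE₀, hE₁, hE₂]
        field_simp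
        ring
      rw [e]
      calc _ = A / 2 * ((42 * Real.sqrt 3 - 72) * ((3 + 2 * (X₀ / A + X₁ / A + X₂ / A) +
          (X₀ / A + X₁ / A + X₂ / A) ^ 2 -
          2 * ((X₀ / A) ^ 2 + (X₁ / A) ^ 2 + (X₂ / A) ^ 2)) / 2)) := by ring
        _ ≤ A / 2 * max (Real.sqrt 3) (1 + (X₀ / A + X₁ / A + X₂ / A)) :=
            mul_le_mul_of_nonneg_left hnum (by positivity)
        _ = _ := by ring
    · intro hs
      by_contra hcon
      push Not at hcon
      obtain ⟨k0, k1, k2⟩ := hcon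
      have hmax := h.max _ ha₀ _ ha₁ _ ha₂
      have hbd := bary_det p₀ p₁ p₂ a₀ a₁ a₂
      rw [hA] at hbd
      -- the coordinates
      have c0 := hsum a₀
      have c1 := hsum a₁
      have c2 := hsum a₂
      set y₀ := X₀ / A with hy₀
      set y₁ := X₁ / A with hy₁
      set y₂ := X₂ / A with hy₂
      have n0 : 0 ≤ y₀ := by positivity
      have n1 : 0 ≤ y₁ := by positivity
      have n2 : 0 ≤ y₂ := by positivity
      have m0 : y₀ ≤ 1 := by rw [hy₀, div_le_one hA0]; exact X₀A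
      have m1 : y₁ ≤ 1 := by rw [hy₁, div_le_one hA0]; exact X₁A
      have m2 : y₂ ≤ 1 := by rw [hy₂, div_le_one hA0]; exact X₂A
      have eX₀ : X₀ = A * y₀ := by rw [hy₀]; field_simp
      have eX₁ : X₁ = A * y₁ := by rw [hy₁]; field_simp
      have eX₂ : X₂ = A * y₂ := by rw [hy₂]; field_simp
      have q0 : l₀ a₀ = -(A * y₀) := by rw [← eX₀]; ring
      have q1 : l₁ a₁ = -(A * y₁) := by rw [← eX₁]; ring
      have q2 : l₂ a₂ = -(A * y₂) := by rw [← eX₂]; ring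
      set g₀ := l₁ a₀ / A with hg₀
      set g₁ := l₂ a₁ / A with hg₁
      set g₂ := l₀ a₂ / A with hg₂
      have r0 : l₁ a₀ = A * g₀ := by rw [hg₀]; field_simp
      have r1 : l₂ a₁ = A * g₁ := by rw [hg₁]; field_simp
      have r2 : l₀ a₂ = A * g₂ := by rw [hg₂]; field_simp
      have t0 : l₂ a₀ = A * (1 + y₀ - g₀) := by linarith
      have t1 : l₀ a₁ = A * (1 + y₁ - g₁) := by linarith
      have t2 : l₁ a₂ = A * (1 + y₂ - g₂) := by linarith
      have b0 : g₀ ≤ 1 := by rw [hg₀, div_le_one hA0]; exact u₁ _ ha₀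
      have b1 : g₁ ≤ 1 := by rw [hg₁, div_le_one hA0]; exact u₂ _ ha₁
      have b2 : g₂ ≤ 1 := by rw [hg₂, div_le_one hA0]; exact u₀ _ ha₂
      have w0 : l₂ a₀ ≤ A := u₂ _ ha₀
      have w1 : l₀ a₁ ≤ A := u₀ _ ha₁
      have w2 : l₁ a₂ ≤ A := u₁ _ ha₂
      rw [t0] at w0
      rw [t1] at w1
      rw [t2] at w2
      have v0 : y₀ ≤ g₀ := by
        have : A * (1 + y₀ - g₀) ≤ A * 1 := by linarith
        have := le_of_mul_le_mul_left this hA0
        linarith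
      have v1 : y₁ ≤ g₁ := by
        have : A * (1 + y₁ - g₁) ≤ A * 1 := by linarith
        have := le_of_mul_le_mul_left this hA0
        linarith
      have v2 : y₂ ≤ g₂ := by
        have : A * (1 + y₂ - g₂) ≤ A * 1 := by linarith
        have := le_of_mul_le_mul_left this hA0
        linarith
      have hbd' : A ^ 2 * area2 a₀ a₁ a₂ =
          l₀ a₀ * (l₁ a₁ * l₂ a₂ - l₂ a₁ * l₁ a₂) - l₁ a₀ * (l₀ a₁ * l₂ a₂ - l₂ a₁ * l₀ a₂) +
          l₂ a₀ * (l₀ a₁ * l₁ a₂ - l₁ a₁ * l₀ a₂) := hbd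
      rw [q0, q1, q2, r0, r1, r2, t0, t1, t2] at hbd'
      have hs1 : 1 < y₀ + y₁ + y₂ := by
        have hrb : Real.sqrt 3 < 2 := by
          rw [Real.sqrt_lt' (by norm_num)]; norm_num
        have hr0 : 0 < Real.sqrt 3 := Real.sqrt_pos.2 (by norm_num)
        have : 2 < 4 / Real.sqrt 3 := by
          rw [lt_div_iff₀ hr0]; linarith
        linarith
      have hsp : 0 < y₀ * y₁ + y₁ * y₂ + y₂ * y₀ := by
        by_contra hneg
        push Not at hneg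
        have p01 := mul_nonneg n0 n1
        have p12 := mul_nonneg n1 n2
        have p20 := mul_nonneg n2 n0
        have z01 : y₀ * y₁ = 0 := by linarith
        have z12 : y₁ * y₂ = 0 := by linarith
        have z20 : y₂ * y₀ = 0 := by linarith
        rcases mul_eq_zero.1 z01 with h | h
        · rcases mul_eq_zero.1 z12 with h' | h'
          · linarith
          · linarith
        · rcases mul_eq_zero.1 z20 with h' | h'
          · linarith
          · linarith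
      have hbox := box_gt v0 v1 v2 b0 b1 b2 hsp k0 k1 k2
      have e2 : A ^ 2 * area2 a₀ a₁ a₂ = A ^ 3 * (-y₀ * y₁ * y₂ + y₀ * g₁ * (1 + y₂ - g₂) +
          y₁ * (1 + y₀ - g₀) * g₂ + y₂ * g₀ * (1 + y₁ - g₁) + g₀ * g₁ * g₂ +
          (1 + y₀ - g₀) * (1 + y₁ - g₁) * (1 + y₂ - g₂)) := by
        rw [hbd']; ring
      have e3 : A ^ 3 * 1 < A ^ 3 * (-y₀ * y₁ * y₂ + y₀ * g₁ * (1 + y₂ - g₂) +
          y₁ * (1 + y₀ - g₀) * g₂ + y₂ * g₀ * (1 + y₁ - g₁) + g₀ * g₁ * g₂ +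
          (1 + y₀ - g₀) * (1 + y₁ - g₁) * (1 + y₂ - g₂)) :=
        mul_lt_mul_of_pos_left hbox (by positivity)
      rw [← e2] at e3
      have e4 : A ^ 2 * A < A ^ 2 * area2 a₀ a₁ a₂ := by
        calc A ^ 2 * A = A ^ 3 * 1 := by ring
          _ < _ := e3
      have e5 := lt_of_mul_lt_mul_left e4 (by positivity)
      linarith
  · -- displacements
    intro m n hmn x hx y hy hxy
    have disp : ∀ p q : P2, area2 x p q - area2 y p q = det2 (x - y) (p - q) := by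
      intro p q
      simp only [area2, det2, Pi.sub_apply]; ring
    have f₀ : l₀ x - l₀ y = -(m * (E₁ + E₂) - n * E₂) := by
      have h1 : l₀ x - l₀ y = det2 (x - y) (p₁ - p₂) := disp p₁ p₂
      rw [h1, hxy]
      have e : det2 ((m : ℝ) • t₁ + (n : ℝ) • t₂) (p₁ - p₂) =
          -(m * (E₁ + E₂) - n * E₂) / A * area2 p₀ p₁ p₂ := by
        simp only [ht₁, ht₂, det2, area2, Pi.sub_apply, Pi.add_apply, Pi.smul_apply, smul_eq_mul]
        field_simp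
        ring
      rw [e, hA]
      field_simp
    have f₁ : l₁ x - l₁ y = m * E₂ - n * (E₂ + E₀) := by
      have h1 : l₁ x - l₁ y = det2 (x - y) (p₂ - p₀) := disp p₂ p₀
      rw [h1, hxy]
      have e : det2 ((m : ℝ) • t₁ + (n : ℝ) • t₂) (p₂ - p₀) =
          (m * E₂ - n * (E₂ + E₀)) / A * area2 p₀ p₁ p₂ := by
        simp only [ht₁, ht₂, det2, area2, Pi.sub_apply, Pi.add_apply, Pi.smul_apply, smul_eq_mul]
        field_simp
        ring
      rw [e, hA]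
      field_simp
    have f₂ : l₂ x - l₂ y = m * E₁ + n * E₀ := by
      have h3 := hsum x
      have h4 := hsum y
      linarith
    -- strict bounds in the interior
    have str : ∀ (l : P2 → ℝ) (p q d : P2), (∀ z, l z = area2 z p q) → det2 d (p - q) = A →
        (∀ z ∈ Q, l z ≤ A) → ∀ z ∈ interior Q, l z < A := by
      intro l p q d hl hd hC z hz
      refine lt_of_interior (d := (1 / A) • d) ?_ hC hz
      intro w r
      rw [hl, hl]
      have : area2 (w + r • (1 / A) • d) p q = area2 w p q + r / A * det2 d (p - q) := by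
        simp only [area2, det2, Pi.sub_apply, Pi.add_apply, Pi.smul_apply, smul_eq_mul]
        ring
      rw [this, hd, div_mul_cancel₀ _ hAne]
    have s₀ : ∀ z ∈ interior Q, l₀ z < A := str l₀ p₁ p₂ (p₀ - p₁) (fun _ => rfl) (by
      rw [← hA]; simp only [area2, det2, Pi.sub_apply]; ring) u₀
    have s₁ : ∀ z ∈ interior Q, l₁ z < A := str l₁ p₂ p₀ (p₁ - p₂) (fun _ => rfl) (by
      rw [← hA]; simp only [area2, det2, Pi.sub_apply]; ring) u₁
    have s₂ : ∀ z ∈ interior Q, l₂ z < A := str l₂ p₀ p₁ (p₂ - p₀) (fun _ => rfl) (by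
      rw [← hA]; simp only [area2, det2, Pi.sub_apply]; ring) u₂
    have b₀ : ∀ z ∈ interior Q, ∀ w ∈ interior Q, l₀ z - l₀ w < E₁ + E₂ := by
      intro z hz w hw
      have h1 := s₀ z hz
      have h2 := hmin₀ w (interior_subset hw)
      rw [hE₁, hE₂]; linarith
    have b₁ : ∀ z ∈ interior Q, ∀ w ∈ interior Q, l₁ z - l₁ w < E₀ + E₂ := by
      intro z hz w hw
      have h1 := s₁ z hz
      have h2 := hmin₁ w (interior_subset hw)
      rw [hE₀, hE₂]; linarith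
    have b₂ : ∀ z ∈ interior Q, ∀ w ∈ interior Q, l₂ z - l₂ w < E₀ + E₁ := by
      intro z hz w hw
      have h1 := s₂ z hz
      have h2 := hmin₂ w (interior_subset hw)
      rw [hE₀, hE₁]; linarith
    have B₀ := b₀ x hx y hy
    have B₀' := b₀ y hy x hx
    have B₁ := b₁ x hx y hy
    have B₁' := b₁ y hy x hx
    have B₂ := b₂ x hx y hy
    have B₂' := b₂ y hy x hx
    rw [f₀] at B₀
    rw [f₁] at B₁
    rw [f₂] at B₂
    rw [show l₀ y - l₀ x = m * (E₁ + E₂) - n * E₂ by linarith] at B₀'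
    rw [show l₁ y - l₁ x = -(m * E₂ - n * (E₂ + E₀)) by linarith] at B₁'
    rw [show l₂ y - l₂ x = -(m * E₁ + n * E₀) by linarith] at B₂'
    -- case analysis on signs
    have cast_ge : ∀ k : ℤ, 0 < k → (1 : ℝ) ≤ k := fun k hk => by exact_mod_cast hk
    have cast_le : ∀ k : ℤ, k < 0 → (k : ℝ) ≤ -1 := fun k hk => by
      have : k ≤ -1 := by omega
      exact_mod_cast this
    rcases lt_trichotomy m 0 with hm | hm | hm <;> rcases lt_trichotomy n 0 with hn | hn | hn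
    · have h1 := cast_le m hm
      have h2 := cast_le n hn
      have h3 := mul_le_mul_of_nonneg_right h1 E₁0
      have h4 := mul_le_mul_of_nonneg_right h2 E₀0
      linarith
    · have h1 := cast_le m hm
      have h3 := mul_le_mul_of_nonneg_right h1 (add_nonneg E₁0 E₂0)
      rw [hn] at B₀
      push_cast at B₀
      linarith
    · have h1 := cast_le m hm
      have h2 := cast_ge n hn
      have h3 := mul_le_mul_of_nonneg_right h1 (add_nonneg E₁0 E₂0)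
      have h4 := mul_nonneg (show (0 : ℝ) ≤ n by linarith) E₂0
      linarith
    · have h2 := cast_le n hn
      have h3 := mul_le_mul_of_nonneg_right h2 (add_nonneg E₂0 E₀0)
      rw [hm] at B₁
      push_cast at B₁
      linarith
    · rcases hmn with h | h
      · exact h hm
      · exact h hn
    · have h2 := cast_ge n hn
      have h3 := mul_le_mul_of_nonneg_right h2 (add_nonneg E₂0 E₀0)
      rw [hm] at B₁'
      push_cast at B₁'
      linarith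
    · have h1 := cast_ge m hm
      have h2 := cast_le n hn
      have h3 := mul_le_mul_of_nonneg_right h1 (add_nonneg E₁0 E₂0)
      have h4 := mul_nonneg (show (0 : ℝ) ≤ -n by linarith) E₂0
      linarith
    · have h1 := cast_ge m hm
      have h3 := mul_le_mul_of_nonneg_right h1 (add_nonneg E₁0 E₂0)
      rw [hn] at B₀'
      push_cast at B₀'
      linarith
    · have h1 := cast_ge m hm
      have h2 := cast_ge n hn
      have h3 := mul_le_mul_of_nonneg_right h1 E₁0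
      have h4 := mul_le_mul_of_nonneg_right h2 E₀0
      linarith


end Pool.Agent.Helper63.ML
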